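import Mathlib
import Pool.Agent.H8.Rk2
import Pool.Agent.H8.Rk3

namespace Pool.Agent.Results.MP_e8bb44_al.Exist

open Pool.Agent.H8.RkD

theorem result (F : Type*) [Field F] (n : ℕ) (c : Composition n) (l : Module.Dual F (J c F)) :
    ∃ D : Finset (Fin n × Fin n), IsRook c D ∧ Eqv c l (lam c F D) :=
  Pool.Agent.H8.Rk.q1 c l

end Pool.Agent.Results.MP_e8bb44_al.Exist
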