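import Mathlib
import Pool.Agent.H8.Rk2
import Pool.Agent.H8.Rk4

namespace Pool.Agent.Results.MP_e8bb44_al.Unique

open Pool.Agent.H8.RkD

theorem result (F : Type*) [Field F] (n : ℕ) (c : Composition n) (D D' : Finset (Fin n × Fin n))
    (hD : IsRook c D) (hD' : IsRook c D') :
    Eqv c (lam c F D) (lam c F D') ↔
      ∃ w : Equiv.Perm (Fin n), (∀ i, c.index (w i) = c.index i) ∧
        D' = D.image (Prod.map w w) :=
  Pool.Agent.H8.Rk.q2 c D D' hD hD'

end Pool.Agent.Results.MP_e8bb44_al.Unique
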